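import Pool.Agent.TH729.SQ.Comp
import Pool.Agent.TH729.SQ.Values

/-!
# Openness at a real and a further place gives semialgebraic closures (helper43)
-/

set_option autoImplicit false
set_option linter.unusedSectionVars false

namespace Pool.Agent.K6.H43.MZC

open Set Filter Topology Pool.Agent.H581R2 Pool.Agent.TH729.SQ

/-- the real coordinates and the second coordinates of the rational points of `f = 0` -/
def Diag {n Y : Type} (f : MvPolynomial n ℚ) (j : (n → ℚ) → Y) : Set ((n → ℝ) × Y) :=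
  {s | ∃ r : n → ℚ, MvPolynomial.eval r f = 0 ∧ s = (fun i => (r i : ℝ), j r)}

/-- If the closure of the rational points of `f = 0` in the product of the real points with another
space is, for fixed second coordinates, open in `f = 0` outside of `N = 0`, then the closure of the
rational points of `f = 0`, `N ≠ 0` in the real space is semialgebraic: it consists of the
closures of components of the set `f = 0`, `N ≠ 0`. -/
theorem sa_of_open {n Y : Type} [Finite n] [TopologicalSpace Y] (f N : MvPolynomial n ℚ)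
    (j : (n → ℚ) → Y)
    (H : ∀ (x : n → ℝ) (P : n → ℚ), MvPolynomial.eval P f = 0 → MvPolynomial.eval P N ≠ 0 →
      (x, j P) ∈ closure (Diag f j) → MvPolynomial.aeval x N ≠ 0 →
      ∀ᶠ x' in 𝓝 x, MvPolynomial.aeval x' f = 0 → (x', j P) ∈ closure (Diag f j)) :
    SA (closure (rl {r : n → ℚ | MvPolynomial.eval r f = 0 ∧ MvPolynomial.eval r N ≠ 0})) := by
  classical
  have : Fintype n := Fintype.ofFinite n
  set D : Set (n → ℚ) := {r | MvPolynomial.eval r f = 0 ∧ MvPolynomial.eval r N ≠ 0} with hD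
  set V : Set (n → ℝ) := {x | MvPolynomial.aeval x f = 0 ∧ MvPolynomial.aeval x N ≠ 0} with hV
  have hVs : SA V := (SAP.eq_zero (PF.aeval f)).and (SAP.eq_zero (PF.aeval N)).not
  have hcN : Continuous fun x : n → ℝ => MvPolynomial.aeval x N := by
    have : (fun x : n → ℝ => MvPolynomial.aeval x N) =
        fun x => MvPolynomial.eval x (MvPolynomial.map (algebraMap ℚ ℝ) N) := by
      funext x
      rw [MvPolynomial.eval_map]
      rfl
    rw [this]
    exact MvPolynomial.continuous_eval _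
  let A : (n → ℚ) → Set (n → ℝ) := fun P => {x | x ∈ V ∧ (x, j P) ∈ closure (Diag f j)}
  have hA : ∀ P ∈ D, A P ⊆ V ∧ LC V (A P) := by
    rintro P ⟨hP, hPN⟩
    refine ⟨fun x hx => hx.1, fun x hx => ?_⟩
    by_cases hxC : (x, j P) ∈ closure (Diag f j)
    · have h1 := (H x P hP hPN hxC hx.2).filter_mono (nhdsWithin_le_nhds (s := V))
      filter_upwards [h1, self_mem_nhdsWithin] with y hy hyV
      exact ⟨fun _ => ⟨hx, hxC⟩, fun _ => ⟨hyV, hy hyV.1⟩⟩
    · have h1 : ∀ᶠ y in 𝓝 x, (y, j P) ∉ closure (Diag f j) := by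
        have hc : Continuous fun y : n → ℝ => (y, j P) := by fun_prop
        exact hc.continuousAt.eventually (isClosed_closure.isOpen_compl.mem_nhds hxC)
      filter_upwards [h1.filter_mono nhdsWithin_le_nhds] with y hy
      exact ⟨fun h => absurd h.2 hy, fun h => absurd h.2 hxC⟩
  have hfin : {B | ∃ P ∈ D, B = A P}.Finite := by
    refine (fc_sa n V hVs).subset ?_
    rintro _ ⟨P, hP, rfl⟩
    exact hA P hP
  set W : Set (n → ℝ) := ⋃₀ {B | ∃ P ∈ D, B = A P} with hW
  have hWV : W ⊆ V := by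
    rintro x ⟨_, ⟨P, hP, rfl⟩, hx⟩
    exact (hA P hP).1 hx
  have hWL : LC V W := by
    intro x hx
    have h1 : ∀ᶠ y in 𝓝[V] x, ∀ B ∈ {B | ∃ P ∈ D, B = A P}, (y ∈ B ↔ x ∈ B) := by
      refine (Filter.eventually_all_finite hfin).2 ?_
      rintro _ ⟨P, hP, rfl⟩
      exact (hA P hP).2 x hx
    filter_upwards [h1] with y hy
    simp only [hW, mem_sUnion]
    constructor
    · rintro ⟨B, hB, h⟩
      exact ⟨B, hB, (hy B hB).1 h⟩
    · rintro ⟨B, hB, h⟩
      exact ⟨B, hB, (hy B hB).2 h⟩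
  have hWs : SA W := sa_of_lc n V W hVs hWV hWL
  have h1 : rl D ⊆ W := by
    rintro _ ⟨r, hr, rfl⟩
    refine ⟨A r, ⟨r, hr, rfl⟩, ⟨?_, ?_⟩, subset_closure ⟨r, hr.1, rfl⟩⟩
    · rw [aeval_cast, hr.1]
      simp
    · rw [aeval_cast]
      exact_mod_cast hr.2
  have h2 : W ⊆ closure (rl D) := by
    rintro x ⟨_, ⟨P, hP, rfl⟩, hxV, hxC⟩
    rw [_root_.mem_closure_iff]
    intro O hO hxO
    have hO' : IsOpen ((O ∩ {y | MvPolynomial.aeval y N ≠ 0}) ×ˢ (univ : Set Y)) :=
      (hO.inter (isOpen_ne_fun hcN continuous_const)).prod isOpen_univ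
    obtain ⟨s, hs, ⟨r, hr, rfl⟩⟩ := (_root_.mem_closure_iff.1 hxC) _ hO' ⟨⟨hxO, hxV.2⟩, trivial⟩
    refine ⟨_, hs.1.1, r, ⟨hr, ?_⟩, rfl⟩
    have h3 : MvPolynomial.aeval (fun i => (r i : ℝ)) N ≠ 0 := hs.1.2
    rw [aeval_cast] at h3
    exact_mod_cast h3
  have h3 : closure (rl D) = closure W :=
    Subset.antisymm (closure_mono h1) (closure_minimal h2 isClosed_closure)
  rw [h3]
  exact Pool.Agent.TH729.SQ.SA.closure hWs

/-- If the closure of a set of rational points in a semialgebraic set is relatively open, then it is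
semialgebraic. -/
theorem sa_of_open_real {n : Type} [Finite n] (D : Set (n → ℚ)) (V : Set (n → ℝ)) (hV : SA V)
    (hDV : rl D ⊆ V)
    (H : ∀ x ∈ V, x ∈ closure (rl D) → ∀ᶠ y in 𝓝[V] x, y ∈ closure (rl D)) :
    SA (closure (rl D)) := by
  have hWL : LC V (V ∩ closure (rl D)) := by
    intro x hx
    by_cases hxC : x ∈ closure (rl D)
    · filter_upwards [H x hx hxC, self_mem_nhdsWithin] with y hy hyV
      exact ⟨fun _ => ⟨hx, hxC⟩, fun _ => ⟨hyV, hy⟩⟩
    · have h1 : ∀ᶠ y in 𝓝 x, y ∉ closure (rl D) := isClosed_closure.isOpen_compl.mem_nhds hxC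
      filter_upwards [h1.filter_mono nhdsWithin_le_nhds] with y hy
      exact ⟨fun h => absurd h.2 hy, fun h => absurd h.2 hxC⟩
  have hWs : SA (V ∩ closure (rl D)) := sa_of_lc n V _ hV Set.inter_subset_left hWL
  have h3 : closure (rl D) = closure (V ∩ closure (rl D)) :=
    Subset.antisymm (closure_mono fun x hx => ⟨hDV hx, subset_closure hx⟩)
      (closure_minimal Set.inter_subset_right isClosed_closure)
  rw [h3]
  exact Pool.Agent.TH729.SQ.SA.closure hWs

/-- **Values of rational functions on products.** -/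
theorem comp_values {J κ n : Type} [Finite J] [Finite κ] [Finite n] (D : J → Set (n → ℚ))
    (hD : ∀ j, SA (closure (rl (D j)))) (m : ℕ)
    (p : Fin m → MvPolynomial ((J × n) ⊕ κ) ℚ) (q : MvPolynomial ((J × n) ⊕ κ) ℚ) :
    Finite (ConnectedComponents ↥(closure {y : Fin m → ℝ | ∃ (x : J → n → ℚ) (u : κ → ℚ),
      (∀ j, x j ∈ D j) ∧ MvPolynomial.eval (Sum.elim (fun r => x r.1 r.2) u) q ≠ 0 ∧
      ∀ k, y k = ((MvPolynomial.eval (Sum.elim (fun r => x r.1 r.2) u) (p k) /
        MvPolynomial.eval (Sum.elim (fun r => x r.1 r.2) u) q : ℚ) : ℝ)})) :=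
  sa_comp (values_main D hD p q)

end Pool.Agent.K6.H43.MZC
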